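import Pool.Agent.helper24.TG.S3
import Pool.Agent.helper24.TG.S9

set_option linter.all false
set_option autoImplicit false

/-!
# MP_ce98d8_co: the existence of voltages and labellings (union bound)
-/

namespace Pool.Agent.helper24.TG

open Finset Classical
open Pool.Agent.helper11.Tight (nb eo mem_nb)

theorem EX_left {α β : Type} (Ω : Finset α) (Φ : Finset β) (b : α → β → Prop)
    [∀ v, DecidablePred (b v)] [DecidablePred (fun x : α × β => b x.1 x.2)] (M K : ℕ)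
    (h : ∀ v ∈ Ω, (Φ.filter (b v)).card * K ≤ M) :
    ((Ω ×ˢ Φ).filter (fun x => b x.1 x.2)).card * K ≤ Ω.card * M := by
  have h1 : ((Ω ×ˢ Φ).filter (fun x => b x.1 x.2)).card = ∑ v ∈ Ω, (Φ.filter (b v)).card := by
    rw [Finset.card_filter, Finset.sum_product]
    apply Finset.sum_congr rfl
    intro v _
    rw [Finset.card_filter]
    apply Finset.sum_congr rfl
    intro w _
    split_ifs <;> rfl
  rw [h1, Finset.sum_mul]
  calc ∑ v ∈ Ω, (Φ.filter (b v)).card * K ≤ ∑ v ∈ Ω, M := Finset.sum_le_sum h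
    _ = Ω.card * M := by rw [Finset.sum_const, smul_eq_mul]

theorem EX_right {α β : Type} (Ω : Finset α) (Φ : Finset β) (b : α → β → Prop)
    [∀ φ, DecidablePred (fun v => b v φ)] [DecidablePred (fun x : α × β => b x.1 x.2)] (M K : ℕ)
    (h : ∀ φ ∈ Φ, (Ω.filter (fun v => b v φ)).card * K ≤ M) :
    ((Ω ×ˢ Φ).filter (fun x => b x.1 x.2)).card * K ≤ Φ.card * M := by
  have h1 : ((Ω ×ˢ Φ).filter (fun x => b x.1 x.2)).card =
      ∑ φ ∈ Φ, (Ω.filter (fun v => b v φ)).card := by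
    rw [Finset.card_filter, Finset.sum_product_right]
    apply Finset.sum_congr rfl
    intro v _
    rw [Finset.card_filter]
    apply Finset.sum_congr rfl
    intro w _
    split_ifs <;> rfl
  rw [h1, Finset.sum_mul]
  calc ∑ φ ∈ Φ, (Ω.filter (fun v => b v φ)).card * K ≤ ∑ φ ∈ Φ, M := Finset.sum_le_sum h
    _ = Φ.card * M := by rw [Finset.sum_const, smul_eq_mul]

theorem EX_or {α : Type} (Ω : Finset α) (b b' : α → Prop) [DecidablePred b]
    [DecidablePred b'] [DecidablePred (fun v => b v ∨ b' v)] (M M' K : ℕ)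
    (h : (Ω.filter b).card * K ≤ M) (h' : (Ω.filter b').card * K ≤ M') :
    (Ω.filter (fun v => b v ∨ b' v)).card * K ≤ M + M' := by
  have h1 : Ω.filter (fun v => b v ∨ b' v) ⊆ Ω.filter b ∪ Ω.filter b' := by
    intro v hv
    rw [Finset.mem_filter] at hv
    rw [Finset.mem_union, Finset.mem_filter, Finset.mem_filter]
    rcases hv.2 with h2 | h2
    · exact Or.inl ⟨hv.1, h2⟩
    · exact Or.inr ⟨hv.1, h2⟩
  have h2 := le_trans (Finset.card_le_card h1) (Finset.card_union_le _ _)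
  calc (Ω.filter (fun v => b v ∨ b' v)).card * K ≤
        ((Ω.filter b).card + (Ω.filter b').card) * K := Nat.mul_le_mul_right _ h2
    _ = (Ω.filter b).card * K + (Ω.filter b').card * K := by ring
    _ ≤ M + M' := Nat.add_le_add h h'

/-- the numbers -/
theorem EX_num {a F C N1 N2 N3 N4 x : ℝ} (ha : 0 < a) (hF : 0 < F) (hx : 2 ≤ x) (hC : C ≤ x)
    (h1 : N1 * x ^ 10 ≤ 5 * a * F) (h2 : N2 * x ^ 8 ≤ a * (C * (5 * F)))
    (h3 : N3 * x ^ 8 ≤ F * (C * a)) (h4 : N4 * x ^ 4 ≤ a * (4 * F))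
    (h : a * F ≤ N1 + N2 + N3 + N4) : False := by
  have haF : 0 < a * F := mul_pos ha hF
  have hx0 : 0 < x := by linarith
  have e4 : (16 : ℝ) ≤ x ^ 4 := by
    calc (16 : ℝ) = 2 ^ 4 := by norm_num
      _ ≤ x ^ 4 := pow_le_pow_left₀ (by norm_num) hx 4
  have e7 : (128 : ℝ) ≤ x ^ 7 := by
    calc (128 : ℝ) = 2 ^ 7 := by norm_num
      _ ≤ x ^ 7 := pow_le_pow_left₀ (by norm_num) hx 7
  have e10 : (1024 : ℝ) ≤ x ^ 10 := by
    calc (1024 : ℝ) = 2 ^ 10 := by norm_num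
      _ ≤ x ^ 10 := pow_le_pow_left₀ (by norm_num) hx 10
  have g1 : N1 ≤ 5 / 1024 * (a * F) := by
    by_contra hcon
    push Not at hcon
    have : 5 * a * F < N1 * x ^ 10 := by
      calc 5 * a * F = (5 / 1024 * (a * F)) * 1024 := by ring
        _ ≤ (5 / 1024 * (a * F)) * x ^ 10 := mul_le_mul_of_nonneg_left e10 (by positivity)
        _ < N1 * x ^ 10 := mul_lt_mul_of_pos_right hcon (by positivity)
    linarith
  have g2 : N2 ≤ 5 / 128 * (a * F) := by
    by_contra hcon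
    push Not at hcon
    have h5 : a * (C * (5 * F)) ≤ x * (5 * (a * F)) := by
      calc a * (C * (5 * F)) = C * (5 * (a * F)) := by ring
        _ ≤ x * (5 * (a * F)) := mul_le_mul_of_nonneg_right hC (by positivity)
    have : x * (5 * (a * F)) < N2 * x ^ 8 := by
      calc x * (5 * (a * F)) = (5 / 128 * (a * F)) * (128 * x) := by ring
        _ ≤ (5 / 128 * (a * F)) * (x ^ 7 * x) := by
            apply mul_le_mul_of_nonneg_left _ (by positivity)
            exact mul_le_mul_of_nonneg_right e7 hx0.le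
        _ = (5 / 128 * (a * F)) * x ^ 8 := by ring
        _ < N2 * x ^ 8 := mul_lt_mul_of_pos_right hcon (by positivity)
    linarith
  have g3 : N3 ≤ 1 / 128 * (a * F) := by
    by_contra hcon
    push Not at hcon
    have h5 : F * (C * a) ≤ x * (a * F) := by
      calc F * (C * a) = C * (a * F) := by ring
        _ ≤ x * (a * F) := mul_le_mul_of_nonneg_right hC (by positivity)
    have : x * (a * F) < N3 * x ^ 8 := by
      calc x * (a * F) = (1 / 128 * (a * F)) * (128 * x) := by ring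
        _ ≤ (1 / 128 * (a * F)) * (x ^ 7 * x) := by
            apply mul_le_mul_of_nonneg_left _ (by positivity)
            exact mul_le_mul_of_nonneg_right e7 hx0.le
        _ = (1 / 128 * (a * F)) * x ^ 8 := by ring
        _ < N3 * x ^ 8 := mul_lt_mul_of_pos_right hcon (by positivity)
    linarith
  have g4 : N4 ≤ 1 / 4 * (a * F) := by
    by_contra hcon
    push Not at hcon
    have : a * (4 * F) < N4 * x ^ 4 := by
      calc a * (4 * F) = (1 / 4 * (a * F)) * 16 := by ring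
        _ ≤ (1 / 4 * (a * F)) * x ^ 4 := mul_le_mul_of_nonneg_left e4 (by positivity)
        _ < N4 * x ^ 4 := mul_lt_mul_of_pos_right hcon (by positivity)
    linarith
  linarith

/-- a property of the labellings of all copies with small failure probability -/
def CopyOk (Q : ∀ (p : Par) (P O A V : Type) [Fintype P] [DecidableEq P] [Fintype O]
    [DecidableEq O] [Fintype A] [DecidableEq A] [AddCommGroup A] [Fintype V] [DecidableEq V]
    (H : Host P O p.q) (v : O → A) (T : SimpleGraph V), (Fin p.C → P → V) → Prop) : Prop :=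
  ∀ (p : Par) (P O A V : Type) [Fintype P] [DecidableEq P] [Fintype O]
  [DecidableEq O] [Fintype A] [DecidableEq A] [AddCommGroup A] [Fintype V] [DecidableEq V]
  (H : Host P O p.q) (v : O → A) (T : SimpleGraph V) (MM : Finset (Finset V)) (v0 : V),
  Fintype.card A = p.B → TSp p T MM → HPr p H v →
  ((Fintype.piFinset (fun _ : Fin p.C => Psi p H v0)).filter (fun φ =>
    ¬ Q p P O A V H v T φ)).card * 2 ^ (4 * p.Lam) ≤ (Psi p H v0).card ^ p.C

theorem EX (hVS7 : VS7_stmt) (hLB5 : LB5_stmt) (h1 : HP1_stmt) (h2 : HP2_stmt) (h3 : HP3_stmt)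
    (h4 : HP4_stmt) (h6 : HP6_stmt) (p1 : PP1_stmt) (p2 : PP2_stmt) (p3 : PP3_stmt)
    (p4 : PP4_stmt) (p4c : PP4c_stmt) (p5 : PP5_stmt)
    (rg : CopyOk (fun p P O A V _ _ _ _ _ _ _ _ _ H v T φ => Rough p H v T φ))
    (q2 : CopyOk (fun p P O A V _ _ _ _ _ _ _ _ _ H v T φ => Q2 p H v T φ))
    (q3 : CopyOk (fun p P O A V _ _ _ _ _ _ _ _ _ H v T φ => Q3 p H v T φ))
    (q4 : CopyOk (fun p P O A V _ _ _ _ _ _ _ _ _ H v T φ => Q4 p H v T φ)) : Exist_stmt := by
  intro p P O A V _ _ _ _ _ _ _ _ _ H T MM hA hAA hT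
  by_contra hno
  have hVne : Nonempty V := by
    rw [← Fintype.card_pos_iff, hT.card_V]
    exact p.hN
  obtain ⟨v0⟩ := hVne
  have hc6 : 10 ^ 6 ≤ p.c := by
    have := p.hLog
    have := p.hLam
    nlinarith
  have hB2 : 2 ≤ Fintype.card A := by
    rw [hA]
    refine le_trans ?_ p.N7
    calc 2 ≤ p.c := by omega
      _ = p.c ^ 1 := (pow_one _).symm
      _ ≤ p.c ^ 200 := Nat.pow_le_pow_right (by omega) (by norm_num)
  obtain ⟨Ω, hΩd⟩ : ∃ Ω, Ω = Om A H.TT := ⟨_, rfl⟩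
  obtain ⟨Ψ, hΨd⟩ : ∃ Ψ, Ψ = Psi p H v0 := ⟨_, rfl⟩
  have hΩ : 0 < Ω.card := by
    rw [hΩd, Finset.card_pos]
    exact hVS7 O A H.TT 40 H.cs hAA hB2
  have hΨ : 0 < Ψ.card := by
    rw [hΨd, Finset.card_pos]
    exact hLB5 p P O V H v0 hT.card_V
  obtain ⟨Φ, hΦd⟩ : ∃ Φ, Φ = Fintype.piFinset (fun _ : Fin p.C => Psi p H v0) := ⟨_, rfl⟩
  have hΦc : Φ.card = Ψ.card ^ p.C := by
    rw [hΦd, Fintype.card_piFinset, Finset.prod_const, Finset.card_univ, Fintype.card_fin, hΨd]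
  have hΦ : 0 < Φ.card := by rw [hΦc]; positivity
  have hΦΨ : ∀ φ ∈ Φ, ∀ j, φ j ∈ Ψ := by
    intro φ hφ j
    rw [hΦd] at hφ
    rw [hΨd]
    exact Fintype.mem_piFinset.1 hφ j
  -- the four kinds of bad pairs
  let GH : (O → A) → Prop := fun v => H1 p H v ∧ H2 p H v ∧ H3 p H v ∧ H4 p H v ∧ H6 p H v
  let b1 : (O → A) → (Fin p.C → P → V) → Prop := fun v _ => ¬ GH v
  let b2 : (O → A) → (Fin p.C → P → V) → Prop := fun v φ => GH v ∧ ∃ j,
    (¬ P1 p H T MM (φ j) ∨ (¬ P2 p H v MM (φ j) ∨ (¬ P3 p H v (φ j) ∨ (¬ P4 p H v MM (φ j) ∨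
      ¬ P4' p H v MM (φ j)))))
  let b3 : (O → A) → (Fin p.C → P → V) → Prop := fun v φ => ∃ j, P1 p H T MM (φ j) ∧
    ¬ P5 p H v T (φ j)
  let b4 : (O → A) → (Fin p.C → P → V) → Prop := fun v φ => GH v ∧
    (¬ Rough p H v T φ ∨ (¬ Q2 p H v T φ ∨ (¬ Q3 p H v T φ ∨ ¬ Q4 p H v T φ)))
  have hcov : Ω ×ˢ Φ ⊆ (((Ω ×ˢ Φ).filter (fun x => b1 x.1 x.2) ∪
      (Ω ×ˢ Φ).filter (fun x => b2 x.1 x.2)) ∪ (Ω ×ˢ Φ).filter (fun x => b3 x.1 x.2)) ∪
      (Ω ×ˢ Φ).filter (fun x => b4 x.1 x.2) := by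
    intro x hx
    by_contra hcon
    simp only [Finset.mem_union, Finset.mem_filter, hx, true_and, not_or] at hcon
    obtain ⟨⟨⟨c1, c2⟩, c3⟩, c4⟩ := hcon
    have hG : GH x.1 := not_not.1 c1
    have c2' : ∀ j, P1 p H T MM (x.2 j) ∧ P2 p H x.1 MM (x.2 j) ∧ P3 p H x.1 (x.2 j) ∧
        P4 p H x.1 MM (x.2 j) ∧ P4' p H x.1 MM (x.2 j) := by
      intro j
      by_contra hcon
      apply c2
      refine ⟨hG, j, ?_⟩
      by_contra h
      push Not at h
      exact hcon h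
    have c3' : ∀ j, P5 p H x.1 T (x.2 j) := by
      intro j
      by_contra h
      exact c3 ⟨j, (c2' j).1, h⟩
    have c4' : Rough p H x.1 T x.2 ∧ Q2 p H x.1 T x.2 ∧ Q3 p H x.1 T x.2 ∧ Q4 p H x.1 T x.2 := by
      by_contra hcon
      apply c4
      refine ⟨hG, ?_⟩
      by_contra h
      push Not at h
      exact hcon h
    rw [Finset.mem_product] at hx
    apply hno
    refine ⟨x.1, x.2, ?_, ?_⟩
    · exact { om := by rw [← hΩd]; exact hx.1, h1 := hG.1, h2 := hG.2.1, h3 := hG.2.2.1,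
              h4 := hG.2.2.2.1, h6 := hG.2.2.2.2 }
    · refine { one := fun j => ?_, rough := c4'.1, q2 := c4'.2.1, q3 := c4'.2.2.1,
               q4 := c4'.2.2.2 }
      have hb : Bald p H (x.2 j) := by
        have := hΦΨ x.2 hx.2 j
        rw [hΨd] at this
        unfold Psi at this
        rw [Finset.mem_filter] at this
        exact this.2.1
      exact { bal := hb, p1 := (c2' j).1, p2 := (c2' j).2.1, p3 := (c2' j).2.2.1,
              p4 := (c2' j).2.2.2.1, p4' := (c2' j).2.2.2.2, p5 := c3' j }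
  have hcard : Ω.card * Φ.card ≤ ((Ω ×ˢ Φ).filter (fun x => b1 x.1 x.2)).card +
      ((Ω ×ˢ Φ).filter (fun x => b2 x.1 x.2)).card +
      ((Ω ×ˢ Φ).filter (fun x => b3 x.1 x.2)).card +
      ((Ω ×ˢ Φ).filter (fun x => b4 x.1 x.2)).card := by
    rw [← Finset.card_product]
    refine le_trans (Finset.card_le_card hcov) (le_trans (Finset.card_union_le _ _)
      (Nat.add_le_add_right (le_trans (Finset.card_union_le _ _)
        (Nat.add_le_add_right (Finset.card_union_le _ _) _)) _))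
  -- bounds
  have n1 : ((Ω ×ˢ Φ).filter (fun x => b1 x.1 x.2)).card * 2 ^ (10 * p.Lam) ≤
      Φ.card * (5 * Ω.card) := by
    apply EX_right Ω Φ b1
    intro φ _
    have e1 : (Ω.filter (fun v => b1 v φ)) ⊆ Ω.filter (fun v => ¬ H1 p H v ∨ (¬ H2 p H v ∨
        (¬ H3 p H v ∨ (¬ H4 p H v ∨ ¬ H6 p H v)))) := by
      intro v hv
      rw [Finset.mem_filter] at hv ⊢
      refine ⟨hv.1, ?_⟩
      by_contra h
      push Not at h
      exact hv.2 h
    refine le_trans (Nat.mul_le_mul_right _ (Finset.card_le_card e1)) ?_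
    have e2 := EX_or Ω (fun v => ¬ H1 p H v) (fun v => ¬ H2 p H v ∨
        (¬ H3 p H v ∨ (¬ H4 p H v ∨ ¬ H6 p H v))) Ω.card _ _
      (by rw [hΩd]; exact h1 p P O A H hA hAA)
      (EX_or Ω (fun v => ¬ H2 p H v) (fun v => (¬ H3 p H v ∨ (¬ H4 p H v ∨ ¬ H6 p H v))) Ω.card _ _
      (by rw [hΩd]; exact h2 p P O A H hA hAA)
      (EX_or Ω (fun v => ¬ H3 p H v) (fun v => (¬ H4 p H v ∨ ¬ H6 p H v)) Ω.card _ _
      (by rw [hΩd]; exact h3 p P O A H hA hAA)
      (EX_or Ω (fun v => ¬ H4 p H v) (fun v => ¬ H6 p H v) Ω.card Ω.card _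
      (by rw [hΩd]; exact h4 p P O A H hA hAA)
      (by rw [hΩd]; exact h6 p P O A H hA hAA))))
    refine le_trans e2 (le_of_eq ?_)
    ring
  have hHP : ∀ v ∈ Ω, GH v → HPr p H v := by
    intro v hv hG
    exact { om := by rw [← hΩd]; exact hv, h1 := hG.1, h2 := hG.2.1, h3 := hG.2.2.1,
            h4 := hG.2.2.2.1, h6 := hG.2.2.2.2 }
  have n2 : ((Ω ×ˢ Φ).filter (fun x => b2 x.1 x.2)).card * 2 ^ (8 * p.Lam) ≤
      Ω.card * (p.C * (5 * Φ.card)) := by
    apply EX_left Ω Φ b2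
    intro v hv
    by_cases hG : GH v
    · obtain ⟨K, hK⟩ : ∃ K, K = 2 ^ (8 * p.Lam) := ⟨_, rfl⟩
      have g : ∀ (bad : (P → V) → Prop) [DecidablePred bad],
          (Ψ.filter bad).card * 2 ^ (8 * p.Lam) ≤ Ψ.card →
          (Φ.filter (fun φ => ∃ j, bad (φ j))).card * 2 ^ (8 * p.Lam) ≤ p.C * Φ.card := by
        intro bad inst hb
        have hi : inst = fun a => Classical.propDecidable (bad a) := Subsingleton.elim _ _
        subst hi
        have := prod_one Ψ p.C (2 ^ (8 * p.Lam)) (fun _ => bad) (fun _ => hb)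
        rw [hΦc]
        have e0 : Φ = Fintype.piFinset (fun _ : Fin p.C => Ψ) := by rw [hΦd, hΨd]
        rw [e0]
        exact this
      have e1 : (Φ.filter (b2 v)) ⊆ Φ.filter (fun φ => (∃ j, ¬ P1 p H T MM (φ j)) ∨
          ((∃ j, ¬ P2 p H v MM (φ j)) ∨ ((∃ j, ¬ P3 p H v (φ j)) ∨
          ((∃ j, ¬ P4 p H v MM (φ j)) ∨ (∃ j, ¬ P4' p H v MM (φ j)))))) := by
        intro φ hφ
        rw [Finset.mem_filter] at hφ ⊢
        refine ⟨hφ.1, ?_⟩
        obtain ⟨-, j, hj⟩ := hφ.2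
        rcases hj with h | h | h | h | h
        · exact Or.inl ⟨j, h⟩
        · exact Or.inr (Or.inl ⟨j, h⟩)
        · exact Or.inr (Or.inr (Or.inl ⟨j, h⟩))
        · exact Or.inr (Or.inr (Or.inr (Or.inl ⟨j, h⟩)))
        · exact Or.inr (Or.inr (Or.inr (Or.inr ⟨j, h⟩)))
      refine le_trans (Nat.mul_le_mul_right _ (Finset.card_le_card e1)) ?_
      have e2 := EX_or Φ (fun φ => ∃ j, ¬ P1 p H T MM (φ j)) (fun φ =>
          ((∃ j, ¬ P2 p H v MM (φ j)) ∨ ((∃ j, ¬ P3 p H v (φ j)) ∨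
          ((∃ j, ¬ P4 p H v MM (φ j)) ∨ (∃ j, ¬ P4' p H v MM (φ j))))))
        (p.C * Φ.card) _ _
        (g (fun φ => ¬ P1 p H T MM φ) (by rw [hΨd]; exact p1 p P O V H T MM v0 hT))
        (EX_or Φ (fun φ => ∃ j, ¬ P2 p H v MM (φ j)) (fun φ => ((∃ j, ¬ P3 p H v (φ j)) ∨
          ((∃ j, ¬ P4 p H v MM (φ j)) ∨ (∃ j, ¬ P4' p H v MM (φ j)))))
        (p.C * Φ.card) _ _
        (g (fun φ => ¬ P2 p H v MM φ) (by rw [hΨd]; exact p2 p P O A V H v T MM v0 hA hT hG.2.2.2.1))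
        (EX_or Φ (fun φ => ∃ j, ¬ P3 p H v (φ j)) (fun φ =>
          ((∃ j, ¬ P4 p H v MM (φ j)) ∨ (∃ j, ¬ P4' p H v MM (φ j))))
        (p.C * Φ.card) _ _
        (g (fun φ => ¬ P3 p H v φ) (by rw [hΨd]; exact p3 p P O A V H v v0 hA hT.card_V))
        (EX_or Φ (fun φ => ∃ j, ¬ P4 p H v MM (φ j)) (fun φ => ∃ j, ¬ P4' p H v MM (φ j))
        (p.C * Φ.card) (p.C * Φ.card) _
        (g (fun φ => ¬ P4 p H v MM φ) (by rw [hΨd]; exact p4 p P O A V H v T MM v0 hA hT hG.2.2.1))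
        (g (fun φ => ¬ P4' p H v MM φ) (by rw [hΨd]; exact p4c p P O A V H v T MM v0 hA hT hG.2.2.1)))))
      refine le_trans e2 (le_of_eq ?_)
      ring
    · have e1 : Φ.filter (b2 v) = ∅ := by
        rw [Finset.filter_eq_empty_iff]
        intro φ _ h
        exact hG h.1
      rw [e1, Finset.card_empty, zero_mul]
      exact Nat.zero_le _
  have n3 : ((Ω ×ˢ Φ).filter (fun x => b3 x.1 x.2)).card * 2 ^ (8 * p.Lam) ≤
      Φ.card * (p.C * Ω.card) := by
    apply EX_right Ω Φ b3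
    intro φ hφ
    have e1 : Ω.filter (fun v => b3 v φ) ⊆ (Finset.univ : Finset (Fin p.C)).biUnion
        (fun j => Ω.filter (fun v => P1 p H T MM (φ j) ∧ ¬ P5 p H v T (φ j))) := by
      intro v hv
      rw [Finset.mem_filter] at hv
      obtain ⟨hv1, j, hj⟩ := hv
      rw [Finset.mem_biUnion]
      exact ⟨j, Finset.mem_univ _, by rw [Finset.mem_filter]; exact ⟨hv1, hj⟩⟩
    have e2 := le_trans (Finset.card_le_card e1) Finset.card_biUnion_le
    refine le_trans (Nat.mul_le_mul_right _ e2) ?_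
    rw [Finset.sum_mul]
    calc ∑ j : Fin p.C, (Ω.filter (fun v => P1 p H T MM (φ j) ∧ ¬ P5 p H v T (φ j))).card *
          2 ^ (8 * p.Lam) ≤ ∑ j : Fin p.C, Ω.card := by
          apply Finset.sum_le_sum
          intro j _
          by_cases hP : P1 p H T MM (φ j)
          · have e3 : Ω.filter (fun v => P1 p H T MM (φ j) ∧ ¬ P5 p H v T (φ j)) ⊆
                Ω.filter (fun v => ¬ P5 p H v T (φ j)) := by
              intro v hv
              rw [Finset.mem_filter] at hv ⊢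
              exact ⟨hv.1, hv.2.2⟩
            refine le_trans (Nat.mul_le_mul_right _ (Finset.card_le_card e3)) ?_
            rw [hΩd]
            exact p5 p P O A V H T MM (φ j) hA hAA hT hP
          · have e3 : Ω.filter (fun v => P1 p H T MM (φ j) ∧ ¬ P5 p H v T (φ j)) = ∅ := by
              rw [Finset.filter_eq_empty_iff]
              intro v _ h
              exact hP h.1
            rw [e3, Finset.card_empty, zero_mul]
            exact Nat.zero_le _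
      _ = p.C * Ω.card := by
          rw [Finset.sum_const, smul_eq_mul, Finset.card_univ, Fintype.card_fin]
  have n4 : ((Ω ×ˢ Φ).filter (fun x => b4 x.1 x.2)).card * 2 ^ (4 * p.Lam) ≤
      Ω.card * (4 * Φ.card) := by
    apply EX_left Ω Φ b4
    intro v hv
    by_cases hG : GH v
    · have hH := hHP v hv hG
      have e1 : (Φ.filter (b4 v)) ⊆ Φ.filter (fun φ => ¬ Rough p H v T φ ∨
          (¬ Q2 p H v T φ ∨ (¬ Q3 p H v T φ ∨ ¬ Q4 p H v T φ))) := by
        intro φ hφ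
        rw [Finset.mem_filter] at hφ ⊢
        exact ⟨hφ.1, hφ.2.2⟩
      refine le_trans (Nat.mul_le_mul_right _ (Finset.card_le_card e1)) ?_
      have e2 := EX_or Φ (fun φ => ¬ Rough p H v T φ) (fun φ =>
          (¬ Q2 p H v T φ ∨ (¬ Q3 p H v T φ ∨ ¬ Q4 p H v T φ))) Φ.card _ _
        (by rw [hΦc, hΦd, hΨd]; exact rg p P O A V H v T MM v0 hA hT hH)
        (EX_or Φ (fun φ => ¬ Q2 p H v T φ) (fun φ => (¬ Q3 p H v T φ ∨ ¬ Q4 p H v T φ)) Φ.card _ _
        (by rw [hΦc, hΦd, hΨd]; exact q2 p P O A V H v T MM v0 hA hT hH)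
        (EX_or Φ (fun φ => ¬ Q3 p H v T φ) (fun φ => ¬ Q4 p H v T φ) Φ.card Φ.card _
        (by rw [hΦc, hΦd, hΨd]; exact q3 p P O A V H v T MM v0 hA hT hH)
        (by rw [hΦc, hΦd, hΨd]; exact q4 p P O A V H v T MM v0 hA hT hH)))
      refine le_trans e2 (le_of_eq ?_)
      ring
    · have e1 : Φ.filter (b4 v) = ∅ := by
        rw [Finset.filter_eq_empty_iff]
        intro φ _ h
        exact hG h.1
      rw [e1, Finset.card_empty, zero_mul]
      exact Nat.zero_le _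
  -- conclusion
  have hx : (2 : ℝ) ≤ 2 ^ p.Lam := by
    calc (2 : ℝ) = 2 ^ 1 := by norm_num
      _ ≤ 2 ^ p.Lam := pow_le_pow_right₀ (by norm_num) p.hLam
  have hCx : (p.C : ℝ) ≤ 2 ^ p.Lam := by
    have hs := p.s1
    have h5 : 1 ≤ 4 * p.B * p.q ^ 2 := by
      have hB : 0 < p.B := by rw [← hA]; omega
      have hq : 0 < p.q := by
        have := p.N4
        have h7 : 0 < p.La * p.c ^ (p.kT + 12) := Nat.mul_pos p.hLa (pow_pos (by omega) _)
        omega
      have : 0 < 4 * p.B * p.q ^ 2 := by positivity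
      omega
    have h6 : p.C ≤ 2 ^ p.Lam := by
      calc p.C = 1 * p.C := (one_mul _).symm
        _ ≤ 4 * p.B * p.q ^ 2 * p.C := Nat.mul_le_mul_right _ h5
        _ ≤ 2 ^ p.Lam := hs
    exact_mod_cast h6
  refine EX_num (a := (Ω.card : ℝ)) (F := (Φ.card : ℝ)) (C := (p.C : ℝ)) (x := (2 : ℝ) ^ p.Lam)
    (N1 := ((((Ω ×ˢ Φ).filter (fun x => b1 x.1 x.2)).card : ℕ) : ℝ))
    (N2 := ((((Ω ×ˢ Φ).filter (fun x => b2 x.1 x.2)).card : ℕ) : ℝ))
    (N3 := ((((Ω ×ˢ Φ).filter (fun x => b3 x.1 x.2)).card : ℕ) : ℝ))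
    (N4 := ((((Ω ×ˢ Φ).filter (fun x => b4 x.1 x.2)).card : ℕ) : ℝ))
    (by exact_mod_cast hΩ) (by exact_mod_cast hΦ) hx hCx ?_ ?_ ?_ ?_ ?_
  · have h7 : (((((Ω ×ˢ Φ).filter (fun x => b1 x.1 x.2)).card * 2 ^ (10 * p.Lam) : ℕ)) : ℝ) ≤
      ((Φ.card * (5 * Ω.card) : ℕ) : ℝ) := by exact_mod_cast n1
    push_cast at h7
    rw [← pow_mul, mul_comm p.Lam 10]
    linarith
  · have h7 : (((((Ω ×ˢ Φ).filter (fun x => b2 x.1 x.2)).card * 2 ^ (8 * p.Lam) : ℕ)) : ℝ) ≤
      ((Ω.card * (p.C * (5 * Φ.card)) : ℕ) : ℝ) := by exact_mod_cast n2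
    push_cast at h7
    rw [← pow_mul, mul_comm p.Lam 8]
    linarith
  · have h7 : (((((Ω ×ˢ Φ).filter (fun x => b3 x.1 x.2)).card * 2 ^ (8 * p.Lam) : ℕ)) : ℝ) ≤
      ((Φ.card * (p.C * Ω.card) : ℕ) : ℝ) := by exact_mod_cast n3
    push_cast at h7
    rw [← pow_mul, mul_comm p.Lam 8]
    linarith
  · have h7 : (((((Ω ×ˢ Φ).filter (fun x => b4 x.1 x.2)).card * 2 ^ (4 * p.Lam) : ℕ)) : ℝ) ≤
      ((Ω.card * (4 * Φ.card) : ℕ) : ℝ) := by exact_mod_cast n4
    push_cast at h7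
    rw [← pow_mul, mul_comm p.Lam 4]
    linarith
  · exact_mod_cast hcard

end Pool.Agent.helper24.TG
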