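import Pool.Agent.helper24.TG.S4
import Pool.Agent.helper40.TG.EX

set_option linter.all false
set_option autoImplicit false

/-!
# MP_ce98d8_co: module EXI
-/

namespace Pool.Agent.helper24.TG

open Finset Classical
open Pool.Agent.helper11.Tight (nb eo mem_nb)

theorem EXI (hVS7 : VS7_stmt) (hLB5 : LB5_stmt) (h1 : HP1_stmt) (h2 : HP2_stmt) (h3 : HP3_stmt)
    (h4 : HP4_stmt) (h6 : HP6_stmt) (p1 : PP1_stmt) (p2 : PP2_stmt) (p3 : PP3_stmt)
    (p4 : PP4_stmt) (p4c : PP4c_stmt) (p5 : PP5_stmt) (rg : RG2_stmt) (q2 : Q2f_stmt)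
    (q3 : Q3f_stmt) (q4 : Q4f_stmt) : Exist_stmt := by
  apply EX hVS7 hLB5 h1 h2 h3 h4 h6 p1 p2 p3 p4 p4c p5
  · intro p P O A V _ _ _ _ _ _ _ _ _ H v T MM v0 hA hT hH
    exact rg p P O A V H v T MM v0 hA hT hH.h1 hH.h6
  · intro p P O A V _ _ _ _ _ _ _ _ _ H v T MM v0 hA hT hH
    exact q2 p P O A V H v T MM v0 hA hT hH.h2
  · intro p P O A V _ _ _ _ _ _ _ _ _ H v T MM v0 hA hT hH
    exact q3 p P O A V H v T MM v0 hA hT hH.h2 hH.h3
  · intro p P O A V _ _ _ _ _ _ _ _ _ H v T MM v0 hA hT hH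
    exact q4 p P O A V H v T MM v0 hA hT hH.h3

end Pool.Agent.helper24.TG
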