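import Pool.Agent.helper40.TB.Top
import Pool.Agent.helper40.TG.EXI
import Pool.Agent.helper41.TGE.Core
import Pool.Agent.helper41.TGE.GraphC
import Pool.Agent.helper80.TG.VS1
import Pool.Agent.helper80.TG.VS2
import Pool.Agent.helper80.TG.VS3
import Pool.Agent.helper80.TG.VS4
import Pool.Agent.helper79.TG.VS5
import Pool.Agent.helper84.TG.VS6
import Pool.Agent.helper84.TG.VS7
import Pool.Agent.helper8.TG.LB1
import Pool.Agent.helper74.TG.LB2
import Pool.Agent.helper74.TG.LB34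
import Pool.Agent.helper84.TG.LB5
import Pool.Agent.helper84.TG.LB6
import Pool.Agent.helper62.TG.Cont
import Pool.Agent.helper62.TG.Count
import Pool.Agent.helper13.TG.CT2
import Pool.Agent.helper82.TG.MX
import Pool.Agent.helper8.TG.H3c
import Pool.Agent.helper26.TG.HP1
import Pool.Agent.helper14.TG.HP2
import Pool.Agent.helper16.TG.HP3
import Pool.Agent.helper82.TG.HP4
import Pool.Agent.helper8.TG.HP6
import Pool.Agent.helper80.TG.PP1
import Pool.Agent.helper62.TG.PP23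
import Pool.Agent.helper31.TG.PP4
import Pool.Agent.helper80.TG.PP4c
import Pool.Agent.helper8.TG.PP5
import Pool.Agent.helper13.TG.RG1x
import Pool.Agent.helper16.TG.RG1y
import Pool.Agent.helper51.TG.RG1a
import Pool.Agent.helper21.TG.RG1b
import Pool.Agent.helper67.TG.RG1
import Pool.Agent.helper33.TG.RG2

set_option linter.all false
set_option autoImplicit false

/-!
# MP_ce98d8_co: assembly of all modules
-/

namespace Pool.Agent.helper24.TG

theorem exist_of (q2 : Q2f_stmt) (q3 : Q3f_stmt) (q4 : Q4f_stmt) : Exist_stmt :=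
  EXI VS7 LB5 (HP1 VS3) (HP2 VS3) (HP3 VS3) (HP4 VS4) (HP6 MX (VS5 VS1 VS2) VS6)
    (PP1 LB3) (PP2 LB4) (PP3 LB3) (PP4 LB3) (PP4c LB3 H3c) (PP5 VS3)
    (RG2 (CT2 Pool.Agent.helper62.TG.CT1) (RG1 (RG1a (RG1x Pool.Agent.helper62.TG.CT4) (RG1y LB1))
      (RG1b LB3 Pool.Agent.helper62.TG.CT3))) q2 q3 q4

theorem final_of_Q (q2 : Q2f_stmt) (q3 : Q3f_stmt) (q4 : Q4f_stmt) :
    ∀ ε : ℝ, 0 < ε → ∀ N : ℕ, ∃ n : ℕ, N ≤ n ∧
    ∃ (G : SimpleGraph (Fin n)) (k : ℕ),
      (∀ v : Fin n, (G.neighborSet v).ncard = k) ∧ G.CliqueFree 3 ∧ G.indepNum = k ∧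
        (k : ℝ) < (n : ℝ) ^ ((1 : ℝ) / 2 + ε) :=
  Pool.Agent.helper40.TB.final_of_parts (exist_of q2 q3 q4) Pool.Agent.helper41.TGE.Core
    Pool.Agent.helper41.TGE.Graph

end Pool.Agent.helper24.TG
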