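import Pool.Agent.helper40.TG.Fin
import Pool.Agent.helper84.TG.QI
import Pool.Agent.helper84.TG.QP
import Pool.Agent.helper84.TG.QA2
import Pool.Agent.helper15.TG.QA1
import Pool.Agent.helper61.TG.QW
import Pool.Agent.helper55.TG.QN
import Pool.Agent.helper23.TG.QX
import Pool.Agent.helper18.TG.QI2
import Pool.Agent.helper67.TG.QP2
import Pool.Agent.helper23.TG.QD2
import Pool.Agent.helper25.TG.QB2
import Pool.Agent.helper82.TG.Q2f
import Pool.Agent.helper14.TG.QD3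
import Pool.Agent.helper25.TG.QB3
import Pool.Agent.helper64.TG.Q3f
import Pool.Agent.helper82.TG.QS
import Pool.Agent.helper92.TG.QM
import Pool.Agent.helper21.TG.QL
import Pool.Agent.helper25.TG.Q4f

set_option linter.all false
set_option autoImplicit false

/-!
# MP_ce98d8_co: assembly, all modules except QB4
-/

namespace Pool.Agent.helper24.TG

theorem fin_lb6 : LB6_stmt := LB6 LB1
theorem fin_qi2 : QI2_stmt := QI2 (QI fin_lb6 Pool.Agent.helper62.TG.QC2)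
theorem fin_qp2 : QP2_stmt := QP2 (QP fin_lb6 Pool.Agent.helper62.TG.QC1)
theorem fin_q2f : Q2f_stmt := Q2f (QB2 QD2 fin_qi2 fin_qp2)
theorem fin_q3f : Q3f_stmt := Q3f (QB3 QD3 fin_qi2 fin_qp2)
theorem fin_qx : QX_stmt := QX fin_lb6 QN QW
theorem fin_qs : QS_stmt := QS fin_qx (QA1 Pool.Agent.helper62.TG.QC3)
theorem fin_qm : QM_stmt := QM fin_qx (QA1 Pool.Agent.helper62.TG.QC3)
theorem fin_ql : QL_stmt := QL fin_qx (QA2 Pool.Agent.helper62.TG.QC1)

theorem final_of_QB4 (qb4 : QB4_stmt) :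
    ∀ ε : ℝ, 0 < ε → ∀ N : ℕ, ∃ n : ℕ, N ≤ n ∧
    ∃ (G : SimpleGraph (Fin n)) (k : ℕ),
      (∀ v : Fin n, (G.neighborSet v).ncard = k) ∧ G.CliqueFree 3 ∧ G.indepNum = k ∧
        (k : ℝ) < (n : ℝ) ^ ((1 : ℝ) / 2 + ε) :=
  final_of_Q fin_q2f fin_q3f (Q4f qb4)

end Pool.Agent.helper24.TG
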