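import Pool.Agent.helper40.TG.Fin2
import Pool.Agent.helper92.TG.QB4

set_option linter.all false
set_option autoImplicit false

/-!
# MP_ce98d8_co: tight triangle-free graphs with exponent one half
-/

namespace Pool.Agent.helper24.TG

theorem final_one_half :
    ∀ ε : ℝ, 0 < ε → ∀ N : ℕ, ∃ n : ℕ, N ≤ n ∧
    ∃ (G : SimpleGraph (Fin n)) (k : ℕ),
      (∀ v : Fin n, (G.neighborSet v).ncard = k) ∧ G.CliqueFree 3 ∧ G.indepNum = k ∧
        (k : ℝ) < (n : ℝ) ^ ((1 : ℝ) / 2 + ε) :=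
  final_of_QB4 (QB4 fin_qs fin_qm fin_ql)

end Pool.Agent.helper24.TG
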