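import Pool.Agent.helper43.TG.Spec

/-!
# Row tg:TH1 (MP_facb47_co): the main colouring theorem from AKS, SPA and CPT
-/

set_option autoImplicit false

namespace Pool.Agent.helper43.TG

open Pool.Agent.helper70.Sachs (IsPacking touchingGraph chi)
open scoped RealInnerProductSpace

theorem TH1_logpos (n t : ℕ) (Δ : ℝ) (ht : 9 ≤ t)
    (h : (600 * (n : ℝ) / ((t : ℝ) + 1) ^ 2 + 48) * Real.log ((t : ℝ) + 1) ≤ Real.log Δ) :
    0 < Real.log Δ := by
  have ht' : (9 : ℝ) ≤ t := by exact_mod_cast ht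
  have h1 : 0 < Real.log ((t : ℝ) + 1) := Real.log_pos (by linarith)
  have h2 : (0 : ℝ) < 600 * (n : ℝ) / ((t : ℝ) + 1) ^ 2 + 48 := by positivity
  exact lt_of_lt_of_le (mul_pos h2 h1) h

theorem t_th1 (ha : AKS) (hs : SPA) (hc : CPT) : TH1 := by
  classical
  intro n t k Δ M hn ht hΔ hlog hM hdeg hk
  have hL := TH1_logpos n t Δ ht hlog
  have hΔ1 : 1 < Δ := (Real.log_pos_iff hΔ.le).1 hL
  have ht' : (9 : ℝ) ≤ t := by exact_mod_cast ht
  have htpos : (0 : ℝ) < t := by linarith
  apply hc n k M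
  intro F hF
  let G : SimpleGraph (F : Set (E n)) := touchingGraph (F : Set (E n))
  -- the neighbours of `v` as points
  let emb : ↥(F : Set (E n)) ↪ E n := Function.Embedding.subtype _
  have hemb : ∀ x : ↥(F : Set (E n)), emb x = (x : E n) := fun x => rfl
  have hN : ∀ v : ↥(F : Set (E n)),
      ∀ y ∈ (Finset.univ.filter (fun u => G.Adj v u)).map emb, y ∈ M ∧ dist y (v : E n) = 2 := by
    intro v y hy
    rw [Finset.mem_map] at hy
    obtain ⟨u, hu, rfl⟩ := hy
    rw [Finset.mem_filter] at hu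
    have h2 : dist (v : E n) (u : E n) = 2 := hu.2
    exact ⟨hF u.2, by rw [dist_comm]; exact h2⟩
  have hcard : ∀ v : ↥(F : Set (E n)),
      (((Finset.univ.filter (fun u => G.Adj v u)).map emb).card : ℝ) ≤ Δ := fun v =>
    hdeg v (hF v.2) _ (hN v)
  refine ha ↥(F : Set (E n)) G k Δ (Δ ^ (1 / (2 * (t : ℝ)))) ?_ ?_ hΔ ?_ ?_ ?_
  · exact Real.one_lt_rpow hΔ1 (by positivity)
  · calc Δ ^ (1 / (2 * (t : ℝ))) ≤ Δ ^ (2 : ℝ) := by
          apply Real.rpow_le_rpow_of_exponent_le hΔ1.le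
          rw [div_le_iff₀ (by positivity)]
          linarith
      _ = Δ ^ 2 := Real.rpow_two Δ
  · intro v
    have := hcard v
    rw [Finset.card_map] at this
    exact this
  · intro v
    have h1 := hs n t Δ ((Finset.univ.filter (fun u => G.Adj v u)).map emb) hn ht hΔ hlog
      (fun y hy y' hy' hne => hM y (hN v y hy).1 y' (hN v y' hy').1 hne) (hcard v)
    have h2 : ∑ u ∈ Finset.univ.filter (fun u => G.Adj v u),
        ((Finset.univ.filter (fun y => G.Adj v y ∧ G.Adj u y)).card : ℝ) ≤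
        Δ ^ (2 - 1 / (2 * (t : ℝ))) := by
      refine le_trans (le_of_eq ?_) h1
      rw [Finset.sum_map]
      refine Finset.sum_congr rfl fun u _ => ?_
      congr 1
      rw [← Finset.card_map emb]
      congr 1
      ext z
      simp only [Finset.mem_map, Finset.mem_filter, Finset.mem_univ, true_and]
      constructor
      · rintro ⟨y, ⟨hy1, hy2⟩, rfl⟩
        refine ⟨⟨y, hy1, rfl⟩, ?_⟩
        have h3 : dist (u : E n) (y : E n) = 2 := hy2
        rw [dist_comm]
        exact h3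
      · rintro ⟨⟨y, hy1, rfl⟩, hy2⟩
        refine ⟨y, ⟨hy1, ?_⟩, rfl⟩
        have h3 : dist (y : E n) (u : E n) = 2 := hy2
        have h4 : dist (u : E n) (y : E n) = 2 := by rw [dist_comm]; exact h3
        exact h4
    refine le_trans h2 ?_
    rw [Real.rpow_sub hΔ, Real.rpow_two]
    have hf : 0 < Δ ^ (1 / (2 * (t : ℝ))) := Real.rpow_pos_of_pos hΔ _
    apply div_le_div_of_nonneg_right _ hf.le
    nlinarith [sq_nonneg Δ]
  · refine le_trans (le_of_eq ?_) hk
    rw [Real.log_rpow hΔ]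
    field_simp
    ring

end Pool.Agent.helper43.TG
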